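import Pool.Agent.Q275.RT.Stm

/-!
# Project RT (helper275), job BAS: the theorem of Schnirelmann applied to the good numbers
-/

set_option autoImplicit false

open Finset

namespace Pool.Agent.Q153.RT

open Pool.Agent.Q275.RT
open Pool.Agent.W851.Had (cnt schn SumH)

theorem bas : S_DEN → S_BAS := by
  classical
  rintro ⟨δ, hδ, hδ1, x₀, hD⟩
  obtain ⟨h, hh⟩ := exists_nat_ge (1 / δ)
  obtain ⟨S, hS⟩ : ∃ S : ℕ → Prop, ∀ s, S s ↔ (s ≤ x₀ ∨ Good s) := ⟨_, fun _ => Iff.rfl⟩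
  refine ⟨h + h, x₀, fun n => ?_⟩
  have hδh : 1 ≤ δ * h := by
    have h1 := mul_le_mul_of_nonneg_left hh hδ.le
    rwa [mul_one_div_cancel hδ.ne'] at h1
  have key : ∀ m ≤ n, δ * m ≤ cnt S m := by
    intro m _
    unfold cnt
    rcases le_total m x₀ with hm | hm
    · refine le_trans (b := ((Icc 1 m).card : ℝ)) ?_ (Nat.cast_le.2 (Finset.card_le_card ?_))
      · rw [Nat.card_Icc, Nat.add_sub_cancel]
        have h2 : (0 : ℝ) ≤ m := Nat.cast_nonneg _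
        nlinarith
      · intro s hs
        exact Finset.mem_filter.2 ⟨hs, (hS s).2 (Or.inl ((Finset.mem_Icc.1 hs).2.trans hm))⟩
    · obtain ⟨H, hH, hc⟩ := hD m hm
      refine hc.trans (Nat.cast_le.2 (Finset.card_le_card ?_))
      intro t ht
      obtain ⟨h2, h3, h4⟩ := hH t ht
      exact Finset.mem_filter.2 ⟨Finset.mem_Icc.2 ⟨h2, h3⟩, (hS t).2 (Or.inr h4)⟩
  obtain ⟨l, h1, h2, h3⟩ := schn S n h δ hδ1 hδh ((hS 0).2 (Or.inl (Nat.zero_le _))) key n le_rfl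
  exact ⟨l, h1, fun s hs => (hS s).1 (h2 s hs), h3⟩

end Pool.Agent.Q153.RT
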