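import Pool.Agent.Q275.RT.Stm

/-!
# Project RT (helper275), job RICH: the theorem of Richert
-/

set_option autoImplicit false

open Finset

namespace Pool.Agent.Q153.RT

open Pool.Agent.Q275.RT

theorem rich_base (n : ℕ) (h1 : 7 ≤ n) (h2 : n ≤ 34) :
    ∃ U : Finset ℕ, (∀ p ∈ U, p.Prime ∧ p ≤ 13) ∧ ∑ p ∈ U, p = n := by
  have h : ∀ n ∈ Finset.Icc 7 34, ∃ U ∈ ({2, 3, 5, 7, 11, 13} : Finset ℕ).powerset, ∑ p ∈ U, p = n := by decide
  obtain ⟨U, hU, hs⟩ := h n (Finset.mem_Icc.2 ⟨h1, h2⟩)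
  refine ⟨U, fun p hp => ?_, hs⟩
  have h3 := Finset.mem_powerset.1 hU hp
  simp only [Finset.mem_insert, Finset.mem_singleton] at h3
  rcases h3 with rfl | rfl | rfl | rfl | rfl | rfl <;> norm_num

theorem rich_step : ∀ q : ℕ, q.Prime → 13 ≤ q → ∀ n, 7 ≤ n → n ≤ 2 * q + 8 →
    ∃ U : Finset ℕ, (∀ p ∈ U, p.Prime ∧ p ≤ q) ∧ ∑ p ∈ U, p = n := by
  intro q'
  induction q' using Nat.strong_induction_on with
  | _ q' ih =>
    intro hq' h13 n hn7 hn
    rcases eq_or_lt_of_le h13 with h | h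
    · subst h
      exact rich_base n hn7 (by omega)
    · -- the largest prime below `q'`
      obtain ⟨q, hq, hqmax⟩ := Finset.exists_max_image ((Finset.range q').filter Nat.Prime) id
        ⟨13, by rw [Finset.mem_filter, Finset.mem_range]; exact ⟨h, by norm_num⟩⟩
      rw [Finset.mem_filter, Finset.mem_range] at hq
      have hq13 : 13 ≤ q := hqmax 13 (by rw [Finset.mem_filter, Finset.mem_range]; exact ⟨h, by norm_num⟩)
      obtain ⟨r, hr, hqr, hr2⟩ := Nat.exists_prime_lt_and_le_two_mul q (by omega)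
      have hq2 : q' ≤ 2 * q := by
        by_contra hc
        have h3 := hqmax r (by rw [Finset.mem_filter, Finset.mem_range]; exact ⟨by omega, hr⟩)
        have h4 : r ≤ q := h3
        omega
      rcases Nat.lt_or_ge (2 * q + 8) n with hlt | hge
      · obtain ⟨U, hU, hs⟩ := ih q hq.1 hq.2 hq13 (n - q') (by omega) (by omega)
        have hnot : q' ∉ U := fun hm => by
          have := (hU q' hm).2
          omega
        refine ⟨insert q' U, fun p hp => ?_, ?_⟩
        · rcases Finset.mem_insert.1 hp with rfl | hp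
          · exact ⟨hq', le_refl _⟩
          · exact ⟨(hU p hp).1, (hU p hp).2.trans hq.1.le⟩
        · rw [Finset.sum_insert hnot, hs]
          omega
      · obtain ⟨U, hU, hs⟩ := ih q hq.1 hq.2 hq13 n hn7 hge
        exact ⟨U, fun p hp => ⟨(hU p hp).1, (hU p hp).2.trans hq.1.le⟩, hs⟩

theorem rich : S_RICH := by
  intro n hn
  obtain ⟨q, hq, hqp⟩ := Nat.exists_infinite_primes (n + 13)
  obtain ⟨U, hU, hs⟩ := rich_step q hqp (by omega) n hn (by omega)
  exact ⟨U, fun p hp => (hU p hp).1, hs⟩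

end Pool.Agent.Q153.RT
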