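import Pool.Agent.Q275.RT.Stm

/-!
# Project RT (helper275), job SGF: the fourth moment of the sum of the reciprocals of the divisors
-/

set_option autoImplicit false

open Finset

namespace Pool.Agent.Q153.RT

open Pool.Agent.Q275.RT
open Pool.Agent.H357R2.SI (sg)

theorem sgf_cs (h : ℕ) (u v w : ℝ) (hw : 2 * w = u + v) :
    (∑ d ∈ h.divisors, (d : ℝ) ^ w) ^ 2 ≤ (∑ d ∈ h.divisors, (d : ℝ) ^ u) * ∑ d ∈ h.divisors, (d : ℝ) ^ v := by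
  have h2 : ∑ d ∈ h.divisors, (d : ℝ) ^ w = ∑ d ∈ h.divisors, (d : ℝ) ^ (u / 2) * (d : ℝ) ^ (v / 2) := by
    refine Finset.sum_congr rfl fun d hd => ?_
    have hd0 : (0 : ℝ) < d := by exact_mod_cast Nat.pos_of_mem_divisors hd
    rw [← Real.rpow_add hd0]
    congr 1
    linarith
  rw [h2]
  refine (Finset.sum_mul_sq_le_sq_mul_sq _ _ _).trans (le_of_eq ?_)
  have e : ∀ t : ℝ, ∑ d ∈ h.divisors, ((d : ℝ) ^ (t / 2)) ^ 2 = ∑ d ∈ h.divisors, (d : ℝ) ^ t := by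
    intro t
    refine Finset.sum_congr rfl fun d _ => ?_
    rw [← Real.rpow_natCast, ← Real.rpow_mul (Nat.cast_nonneg d)]
    congr 1
    push_cast
    ring
  rw [e, e]

theorem sgf : S_SGF := by
  have hsum : Summable (fun n : ℕ => (n : ℝ) ^ (-(5 / 4) : ℝ)) :=
    Real.summable_nat_rpow.mpr (by norm_num)
  obtain ⟨C₀, hC₀⟩ : ∃ C₀ : ℝ, C₀ = ∑' n : ℕ, (n : ℝ) ^ (-(5 / 4) : ℝ) := ⟨_, rfl⟩
  have hC₀0 : 0 ≤ C₀ := hC₀ ▸ tsum_nonneg (fun n => by positivity)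
  have hpart : ∀ s : Finset ℕ, ∑ d ∈ s, (d : ℝ) ^ (-(5 / 4) : ℝ) ≤ C₀ :=
    fun s => hC₀ ▸ hsum.sum_le_tsum s (fun n _ => by positivity)
  refine ⟨C₀ ^ 4 + 1, by nlinarith [pow_nonneg hC₀0 4], fun T => ?_⟩
  have hnn : ∀ (h : ℕ) (t : ℝ), 0 ≤ ∑ d ∈ h.divisors, (d : ℝ) ^ t := fun h t =>
    Finset.sum_nonneg fun d _ => by positivity
  have h1 : ∀ h ∈ Finset.Icc 1 T, sg h ^ 4 ≤ C₀ ^ 3 * ∑ d ∈ h.divisors, (d : ℝ) ^ (-(1 / 4) : ℝ) := by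
    intro h _
    have h2 : sg h = ∑ d ∈ h.divisors, (d : ℝ) ^ (-1 : ℝ) := by
      unfold sg
      refine Finset.sum_congr rfl fun d _ => ?_
      rw [Real.rpow_neg_one, one_div]
    have h3 : sg h ^ 2 ≤ C₀ * ∑ d ∈ h.divisors, (d : ℝ) ^ (-(3 / 4) : ℝ) := by
      rw [h2]
      exact (sgf_cs h (-(5 / 4)) (-(3 / 4)) (-1) (by norm_num)).trans
        (mul_le_mul_of_nonneg_right (hpart _) (hnn _ _))
    have h4 : (∑ d ∈ h.divisors, (d : ℝ) ^ (-(3 / 4) : ℝ)) ^ 2 ≤ C₀ * ∑ d ∈ h.divisors, (d : ℝ) ^ (-(1 / 4) : ℝ) :=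
      (sgf_cs h (-(5 / 4)) (-(1 / 4)) (-(3 / 4)) (by norm_num)).trans
        (mul_le_mul_of_nonneg_right (hpart _) (hnn _ _))
    calc sg h ^ 4 = (sg h ^ 2) ^ 2 := by ring
      _ ≤ (C₀ * ∑ d ∈ h.divisors, (d : ℝ) ^ (-(3 / 4) : ℝ)) ^ 2 := pow_le_pow_left₀ (sq_nonneg _) h3 2
      _ = C₀ ^ 2 * (∑ d ∈ h.divisors, (d : ℝ) ^ (-(3 / 4) : ℝ)) ^ 2 := by ring
      _ ≤ C₀ ^ 2 * (C₀ * ∑ d ∈ h.divisors, (d : ℝ) ^ (-(1 / 4) : ℝ)) :=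
        mul_le_mul_of_nonneg_left h4 (sq_nonneg _)
      _ = _ := by ring
  have h5 : ∑ h ∈ Finset.Icc 1 T, ∑ d ∈ h.divisors, (d : ℝ) ^ (-(1 / 4) : ℝ) ≤ C₀ * T := by
    have h6 : ∀ h ∈ Finset.Icc 1 T, ∑ d ∈ h.divisors, (d : ℝ) ^ (-(1 / 4) : ℝ) =
        ∑ d ∈ Finset.Icc 1 T, if d ∣ h then (d : ℝ) ^ (-(1 / 4) : ℝ) else 0 := by
      intro h hh
      rw [Finset.mem_Icc] at hh
      rw [← Finset.sum_filter]
      apply Finset.sum_congr _ (fun _ _ => rfl)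
      ext d
      rw [Nat.mem_divisors, Finset.mem_filter, Finset.mem_Icc]
      constructor
      · rintro ⟨h7, h8⟩
        exact ⟨⟨Nat.pos_of_dvd_of_pos h7 (by omega), (Nat.le_of_dvd (by omega) h7).trans hh.2⟩, h7⟩
      · rintro ⟨_, h7⟩
        exact ⟨h7, by omega⟩
    rw [Finset.sum_congr rfl h6, Finset.sum_comm]
    have h7 : ∀ d ∈ Finset.Icc 1 T, (∑ h ∈ Finset.Icc 1 T,
        if d ∣ h then (d : ℝ) ^ (-(1 / 4) : ℝ) else 0) ≤ (d : ℝ) ^ (-(5 / 4) : ℝ) * T := by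
      intro d hd
      rw [Finset.mem_Icc] at hd
      have hd0 : (0 : ℝ) < d := by exact_mod_cast hd.1
      rw [← Finset.sum_filter, Finset.sum_const, nsmul_eq_mul]
      have h8 : ((Finset.Icc 1 T).filter (fun h => d ∣ h)).card = T / d := by
        have := Nat.Ioc_filter_dvd_card_eq_div T d
        rw [← this]
        congr 1
      rw [h8]
      have h9 : ((T / d : ℕ) : ℝ) ≤ (T : ℝ) / d := Nat.cast_div_le
      calc ((T / d : ℕ) : ℝ) * (d : ℝ) ^ (-(1 / 4) : ℝ) ≤ (T : ℝ) / d * (d : ℝ) ^ (-(1 / 4) : ℝ) := by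
            gcongr
        _ = (d : ℝ) ^ (-(5 / 4) : ℝ) * T := by
            rw [show (-(5 / 4) : ℝ) = -1 + -(1 / 4) by norm_num, Real.rpow_add hd0,
              Real.rpow_neg_one]
            field_simp
    refine (Finset.sum_le_sum h7).trans ?_
    rw [← Finset.sum_mul]
    exact mul_le_mul_of_nonneg_right (hpart _) (Nat.cast_nonneg T)
  have hC3 : 0 ≤ C₀ ^ 3 := pow_nonneg hC₀0 3
  calc ∑ h ∈ Finset.Icc 1 T, sg h ^ 4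
      ≤ ∑ h ∈ Finset.Icc 1 T, C₀ ^ 3 * ∑ d ∈ h.divisors, (d : ℝ) ^ (-(1 / 4) : ℝ) :=
        Finset.sum_le_sum h1
    _ = C₀ ^ 3 * ∑ h ∈ Finset.Icc 1 T, ∑ d ∈ h.divisors, (d : ℝ) ^ (-(1 / 4) : ℝ) := by
        rw [Finset.mul_sum]
    _ ≤ C₀ ^ 3 * (C₀ * T) := mul_le_mul_of_nonneg_left h5 hC3
    _ ≤ (C₀ ^ 4 + 1) * T := by
        have : (0 : ℝ) ≤ T := Nat.cast_nonneg T
        nlinarith

end Pool.Agent.Q153.RT
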